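import Mathlib
import Pool.Agent.Lib.MP_b803e5_al.Helly

/-!
# MP_b803e5_al, hereditary modular graphs: geodesics

`X` is a connected bipartite graph with the quadrangle condition and without isometric cycles of
length six (a hereditary modular graph, the 1-skeleton of a quadric complex). Geodesics on the two
sides of a ladder are adjacent step by step (`ladder`), and geodesics towards nearby targets
fellow travel as soon as some vertex lies on a geodesic to one of the targets, but not on a
geodesic to the other (`main_geo`).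
-/

set_option autoImplicit false
set_option linter.unusedTactic false

namespace Pool.Agent.MP_b803e5_al

variable {V : Type*} {X : SimpleGraph V}

/-- The 1-skeleton of a quadric complex (a hereditary modular graph): connected, bipartite, with
the quadrangle condition and without isometric cycle of length six. -/
structure IsHerModular (X : SimpleGraph V) : Prop where
  connected : X.Connected
  bipartite : ∀ y u v : V, X.Adj u v → X.dist u y ≠ X.dist v y
  quadrangle : ∀ y x u v : V, X.Adj x u → X.Adj x v → u ≠ v →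
    X.dist u y + 1 = X.dist x y → X.dist v y + 1 = X.dist x y →
    ∃ w, X.Adj u w ∧ X.Adj v w ∧ X.dist w y + 2 = X.dist x y
  hexagon : ∀ a b c d e g : V, X.Adj a b → X.Adj b c → X.Adj c d → X.Adj d e → X.Adj e g →
    X.Adj g a → X.dist a d ≠ 3 ∨ X.dist b e ≠ 3 ∨ X.dist c g ≠ 3

namespace IsHerModular

lemma step (hX : IsHerModular X) {u v : V} (h : X.Adj u v) (y : V) :
    X.dist u y = X.dist v y + 1 ∨ X.dist v y = X.dist u y + 1 := by
  have h0 := hX.bipartite y u v h
  have h1 := hX.connected.dist_triangle (u := u) (v := v) (w := y)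
  have h2 := hX.connected.dist_triangle (u := v) (v := u) (w := y)
  have h3 := SimpleGraph.dist_eq_one_iff_adj.2 h
  have h4 := SimpleGraph.dist_eq_one_iff_adj.2 h.symm
  omega

lemma step' (hX : IsHerModular X) {T T' : V} (h : X.Adj T T') (y : V) :
    X.dist y T = X.dist y T' + 1 ∨ X.dist y T' = X.dist y T + 1 := by
  have := hX.step h y
  rwa [SimpleGraph.dist_comm (u := T), SimpleGraph.dist_comm (u := T')] at this

/-- One step of a ladder. -/
lemma ladder_step (hX : IsHerModular X) {T T' v w x u : V} {m : ℕ} (hT : X.Adj T T')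
    (hvw : X.Adj v w) (h1 : X.dist v T = m) (h2 : X.dist w T' = m) (h3 : X.dist v T' = m + 1)
    (h4 : X.dist w T = m + 1) (hx : X.Adj v x) (hx1 : X.dist x T + 1 = m) (hu : X.Adj w u)
    (hu1 : X.dist u T' + 1 = m) :
    X.Adj x u ∧ X.dist x T' = m ∧ X.dist u T = m := by
  have hc := hX.connected
  have ex : X.dist x T' = m := by
    have a1 := hX.step' hT x
    have a2 := hX.step hx T'
    omega
  have eu : X.dist u T = m := by
    have a1 := hX.step' hT u
    have a2 := hX.step hu T
    omega
  refine ⟨?_, ex, eu⟩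
  rcases Nat.lt_or_ge m 2 with hm | hm
  · have e1 : x = T := hc.dist_eq_zero_iff.1 (by omega)
    have e2 : u = T' := hc.dist_eq_zero_iff.1 (by omega)
    rw [e1, e2]
    exact hT
  · have hne : u ≠ v := by
      intro h
      rw [h] at hu1
      omega
    obtain ⟨s, hus, hvs, hs⟩ := hX.quadrangle T w u v hu hvw.symm hne (by omega) (by omega)
    by_cases hxs : x = s
    · rw [hxs]
      exact hus.symm
    obtain ⟨q, hxq, hsq, hq⟩ := hX.quadrangle T v x s hx hvs hxs (by omega) (by omega)
    have es : X.dist s T' = m := by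
      have a1 := hX.step' hT s
      have a2 := hX.step hvs T'
      omega
    have eq' : X.dist q T' + 1 = m := by
      have a1 := hX.step' hT q
      have a2 := hX.step hsq T'
      omega
    have hne2 : u ≠ q := by
      intro h
      rw [h] at eu
      omega
    obtain ⟨t, hut, hqt, ht⟩ := hX.quadrangle T' s u q hus.symm hsq hne2 (by omega) (by omega)
    have dvt : X.dist v t = 3 := by
      have b1 := hc.dist_triangle (u := v) (v := t) (w := T')
      have b2 := hc.dist_triangle (u := v) (v := w) (w := t)
      have b3 := hc.dist_triangle (u := w) (v := u) (w := t)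
      have b4 := SimpleGraph.dist_eq_one_iff_adj.2 hvw
      have b5 := SimpleGraph.dist_eq_one_iff_adj.2 hu
      have b6 := SimpleGraph.dist_eq_one_iff_adj.2 hut
      omega
    have dwq : X.dist w q = 3 := by
      have b1 := hc.dist_triangle (u := w) (v := q) (w := T)
      have b2 := hc.dist_triangle (u := w) (v := v) (w := q)
      have b3 := hc.dist_triangle (u := v) (v := x) (w := q)
      have b4 := SimpleGraph.dist_eq_one_iff_adj.2 hvw.symm
      have b5 := SimpleGraph.dist_eq_one_iff_adj.2 hx
      have b6 := SimpleGraph.dist_eq_one_iff_adj.2 hxq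
      omega
    have dxu : X.dist x u ≠ 3 := by
      rcases hX.hexagon x v w u t q hx.symm hvw hu hut hqt.symm hxq.symm with h | h | h
      · exact h
      · exact absurd dvt h
      · exact absurd dwq h
    have c0 : X.dist u u = 0 := SimpleGraph.dist_self
    have c1 := hX.step hu u
    have c2 := hX.step hvw u
    have c3 := hX.step hx u
    have c4 : X.dist v u ≠ 0 := by
      intro h
      exact hne (hc.dist_eq_zero_iff.1 h).symm
    exact SimpleGraph.dist_eq_one_iff_adj.1 (by omega)

end IsHerModular

/-- `c` is a geodesic towards `T` (which it reaches, and where it stays). -/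
def Geo (X : SimpleGraph V) (T : V) (c : ℕ → V) : Prop :=
  ∀ i, (c i ≠ T → X.Adj (c i) (c (i + 1)) ∧ X.dist (c (i + 1)) T + 1 = X.dist (c i) T) ∧
    (c i = T → c (i + 1) = T)

/-- prepend a vertex -/
def consG (P : V) (c : ℕ → V) : ℕ → V
  | 0 => P
  | i + 1 => c i

@[simp] lemma consG_zero (P : V) (c : ℕ → V) : consG P c 0 = P := rfl
@[simp] lemma consG_succ (P : V) (c : ℕ → V) (i : ℕ) : consG P c (i + 1) = c i := rfl

lemma Geo.cons {T P : V} {c : ℕ → V} (hc : Geo X T c) (h : X.Adj P (c 0))
    (h1 : X.dist (c 0) T + 1 = X.dist P T) : Geo X T (consG P c) := by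
  intro i
  cases i with
  | zero =>
    refine ⟨fun _ => ⟨h, h1⟩, fun hP => ?_⟩
    exfalso
    change P = T at hP
    rw [hP, SimpleGraph.dist_self] at h1
    omega
  | succ i => exact hc i

lemma Geo.tail {T : V} {c : ℕ → V} (hc : Geo X T c) : Geo X T (fun i => c (i + 1)) :=
  fun i => hc (i + 1)

lemma geo_const (T : V) : Geo X T (fun _ => T) := fun _ => ⟨fun h => absurd rfl h, fun _ => rfl⟩

lemma Geo.stay {T : V} {c : ℕ → V} (hc : Geo X T c) (h : c 0 = T) : ∀ i, c i = T := by
  intro i
  induction i with
  | zero => exact h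
  | succ i ih => exact (hc i).2 ih

lemma closer (hX : X.Connected) {P T : V} (h : P ≠ T) :
    ∃ y, X.Adj P y ∧ X.dist y T + 1 = X.dist P T := by
  have h0 : X.dist P T ≠ 0 := fun h' => h (hX.dist_eq_zero_iff.1 h')
  obtain ⟨z, hz1, hz2⟩ := exists_between hX (m := 1) (n := X.dist P T - 1)
    (u := P) (v := T) (by omega)
  have h1 := hX.dist_triangle (u := P) (v := z) (w := T)
  exact ⟨z, SimpleGraph.dist_eq_one_iff_adj.1 (by omega), by omega⟩

lemma geo_exists (hX : X.Connected) (T : V) :
    ∀ (n : ℕ) (P : V), X.dist P T = n → ∃ c, Geo X T c ∧ c 0 = P := by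
  intro n
  induction n with
  | zero =>
    intro P h
    have hP := hX.dist_eq_zero_iff.1 h
    exact ⟨fun _ => T, geo_const T, hP.symm⟩
  | succ n ih =>
    intro P h
    have hP : P ≠ T := by
      intro h'
      rw [h', SimpleGraph.dist_self] at h
      omega
    obtain ⟨y, hy1, hy2⟩ := closer hX hP
    obtain ⟨c, hc, hc0⟩ := ih y (by omega)
    exact ⟨consG P c, hc.cons (by rw [hc0]; exact hy1) (by rw [hc0]; exact hy2), rfl⟩

/-- Prepend a geodesic segment. -/
lemma geo_prepend (hX : X.Connected) {T z : V} {q : ℕ → V} (hq : Geo X T q) (hq0 : q 0 = z) :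
    ∀ (k : ℕ) (P : V), X.dist P z = k → k + X.dist z T = X.dist P T →
      ∃ p, Geo X T p ∧ p 0 = P ∧ ∀ i, p (k + i) = q i := by
  intro k
  induction k with
  | zero =>
    intro P h _
    have hP := hX.dist_eq_zero_iff.1 h
    exact ⟨q, hq, by rw [hP, hq0], fun i => by rw [Nat.zero_add]⟩
  | succ k ih =>
    intro P h h1
    have hP : P ≠ z := by
      intro h'
      rw [h', SimpleGraph.dist_self] at h
      omega
    obtain ⟨y, hy1, hy2⟩ := closer hX hP
    have a1 := hX.dist_triangle (u := y) (v := z) (w := T)
    have a2 := hX.dist_triangle (u := P) (v := y) (w := T)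
    have a3 := SimpleGraph.dist_eq_one_iff_adj.2 hy1
    obtain ⟨p, hp, hp0, hpi⟩ := ih y (by omega) (by omega)
    refine ⟨consG P p, hp.cons (by rw [hp0]; exact hy1) (by rw [hp0]; omega), rfl, fun i => ?_⟩
    rw [show k + 1 + i = (k + i) + 1 by omega, consG_succ]
    exact hpi i

section her

variable (hX : IsHerModular X)
include hX

/-- Ladders. -/
lemma ladder {T T' : V} (hT : X.Adj T T') :
    ∀ (m : ℕ) (c d : ℕ → V), Geo X T c → Geo X T' d → X.Adj (c 0) (d 0) →
      X.dist (c 0) T = m → X.dist (d 0) T' = m → X.dist (c 0) T' = m + 1 →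
      X.dist (d 0) T = m + 1 → ∀ i, X.Adj (c i) (d i) := by
  intro m
  induction m with
  | zero =>
    intro c d hc hd _ h1 h2 _ _ i
    have e1 := hX.connected.dist_eq_zero_iff.1 h1
    have e2 := hX.connected.dist_eq_zero_iff.1 h2
    rw [hc.stay e1 i, hd.stay e2 i]
    exact hT
  | succ m ih =>
    intro c d hc hd h0 h1 h2 h3 h4 i
    cases i with
    | zero => exact h0
    | succ i =>
      have n1 : c 0 ≠ T := by
        intro h
        rw [h, SimpleGraph.dist_self] at h1
        omega
      have n2 : d 0 ≠ T' := by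
        intro h
        rw [h, SimpleGraph.dist_self] at h2
        omega
      obtain ⟨a1, a2⟩ := (hc 0).1 n1
      obtain ⟨b1, b2⟩ := (hd 0).1 n2
      obtain ⟨g1, g2, g3⟩ := hX.ladder_step hT h0 h1 h2 h3 h4 a1 (by omega) b1 (by omega)
      exact ih (fun i => c (i + 1)) (fun i => d (i + 1)) hc.tail hd.tail g1
        (by change X.dist (c (0 + 1)) T = m; omega) (by change X.dist (d (0 + 1)) T' = m; omega)
        g2 g3 i

/-- Change of the target: the new target is one step closer. -/
lemma target_closer {T T' : V} (hT : X.Adj T T') :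
    ∀ (n : ℕ) (c : ℕ → V), Geo X T c → X.dist (c 0) T = n → X.dist (c 0) T' + 1 = n →
      ∃ d, Geo X T' d ∧ d 0 = c 0 ∧ ∀ i, X.dist (c i) (d i) ≤ 2 := by
  intro n
  induction n with
  | zero =>
    intro c _ _ h2
    omega
  | succ n ih =>
    intro c hc h1 h2
    have n1 : c 0 ≠ T := by
      intro h
      rw [h, SimpleGraph.dist_self] at h1
      omega
    obtain ⟨a1, a2⟩ := (hc 0).1 n1
    rcases hX.step' hT (c (0 + 1)) with h | h
    · obtain ⟨d, hd, hd0, hdc⟩ := ih (fun i => c (i + 1)) hc.tail
        (by change X.dist (c (0 + 1)) T = n; omega)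
        (by change X.dist (c (0 + 1)) T' + 1 = n; omega)
      have hd0' : d 0 = c (0 + 1) := hd0
      refine ⟨consG (c 0) d, hd.cons (by rw [hd0']; exact a1) (by rw [hd0']; omega), rfl,
        fun i => ?_⟩
      cases i with
      | zero => rw [consG_zero, SimpleGraph.dist_self]; omega
      | succ i => exact hdc i
    · obtain ⟨d, hd, hd0⟩ := geo_exists hX.connected T' _ (c 0) rfl
      refine ⟨d, hd, hd0, fun i => ?_⟩
      have hl := ladder hX hT n (fun i => c (i + 1)) d hc.tail hd
        (by rw [hd0]; exact a1.symm) (by change X.dist (c (0 + 1)) T = n; omega)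
        (by rw [hd0]; omega) (by change X.dist (c (0 + 1)) T' = n + 1; omega)
        (by rw [hd0]; omega) i
      have g1 := SimpleGraph.dist_eq_one_iff_adj.2 hl
      have g2 := hX.connected.dist_triangle (u := c i) (v := c (i + 1)) (w := d i)
      have g3 : X.dist (c i) (c (i + 1)) ≤ 1 := by
        by_cases hi : c i = T
        · rw [(hc i).2 hi, hi, SimpleGraph.dist_self]
          omega
        · exact (SimpleGraph.dist_eq_one_iff_adj.2 ((hc i).1 hi).1).le
      change X.dist (c (i + 1)) (d i) = 1 at g1
      omega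

/-- Change of the target: the new target is one step further. -/
lemma target_further {T T' : V} (hT : X.Adj T T') :
    ∀ (n : ℕ) (c : ℕ → V), Geo X T c → X.dist (c 0) T = n → X.dist (c 0) T' = n + 1 →
      ∃ d, Geo X T' d ∧ d 0 = c 0 ∧ ∀ i, X.dist (c i) (d i) ≤ 2 := by
  intro n
  induction n with
  | zero =>
    intro c hc h1 h2
    have e1 := hX.connected.dist_eq_zero_iff.1 h1
    refine ⟨consG T (fun _ => T'), ?_, by rw [consG_zero, e1], fun i => ?_⟩
    · refine (geo_const T').cons hT ?_
      rw [SimpleGraph.dist_self, SimpleGraph.dist_eq_one_iff_adj.2 hT]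
    · rw [hc.stay e1 i]
      cases i with
      | zero => rw [consG_zero, SimpleGraph.dist_self]; omega
      | succ i => rw [consG_succ, SimpleGraph.dist_eq_one_iff_adj.2 hT]; omega
  | succ n ih =>
    intro c hc h1 h2
    have n1 : c 0 ≠ T := by
      intro h
      rw [h, SimpleGraph.dist_self] at h1
      omega
    obtain ⟨a1, a2⟩ := (hc 0).1 n1
    have a3 := hX.step' hT (c (0 + 1))
    have a4 := hX.step a1 T'
    obtain ⟨d, hd, hd0, hdc⟩ := ih (fun i => c (i + 1)) hc.tail
        (by change X.dist (c (0 + 1)) T = n; omega)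
        (by change X.dist (c (0 + 1)) T' = n + 1; omega)
    have hd0' : d 0 = c (0 + 1) := hd0
    refine ⟨consG (c 0) d, hd.cons (by rw [hd0']; exact a1) (by rw [hd0']; omega), rfl,
      fun i => ?_⟩
    cases i with
    | zero => rw [consG_zero, SimpleGraph.dist_self]; omega
    | succ i => exact hdc i

/-- Change of the target by one step. -/
lemma target_change {T T' : V} (hT : X.Adj T T') {c : ℕ → V} (hc : Geo X T c) :
    ∃ d, Geo X T' d ∧ d 0 = c 0 ∧ ∀ i, X.dist (c i) (d i) ≤ 2 := by
  rcases hX.step' hT (c 0) with h | h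
  · exact target_closer hX hT _ c hc rfl (by omega)
  · exact target_further hX hT _ c hc rfl (by omega)

/-- Change of the target. -/
lemma target_change' :
    ∀ (l : ℕ) (T T' : V), X.dist T T' = l → ∀ c : ℕ → V, Geo X T c →
      ∃ d, Geo X T' d ∧ d 0 = c 0 ∧ ∀ i, X.dist (c i) (d i) ≤ 2 * l := by
  intro l
  induction l with
  | zero =>
    intro T T' h c hc
    have e := hX.connected.dist_eq_zero_iff.1 h
    exact ⟨c, e ▸ hc, rfl, fun i => by rw [SimpleGraph.dist_self]⟩
  | succ l ih =>
    intro T T' h c hc
    have hne : T ≠ T' := by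
      intro h'
      rw [h', SimpleGraph.dist_self] at h
      omega
    obtain ⟨y, hy1, hy2⟩ := closer hX.connected hne
    obtain ⟨d, hd, hd0, hdc⟩ := target_change hX hy1 hc
    obtain ⟨e, he, he0, hed⟩ := ih y T' (by omega) d hd
    refine ⟨e, he, he0.trans hd0, fun i => ?_⟩
    have g1 := hX.connected.dist_triangle (u := c i) (v := d i) (w := e i)
    have g2 := hdc i
    have g3 := hed i
    omega

/-- Change of the starting vertex: one step towards the target. -/
lemma start_change {T : V} :
    ∀ (n : ℕ) (y : V) (p : ℕ → V), X.dist y T = n → Geo X T p → X.Adj (p 0) y →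
      X.dist (p 0) T = n + 1 → ∃ c, Geo X T c ∧ c 0 = y ∧ ∀ i, X.dist (c i) (p i) ≤ 1 := by
  intro n
  induction n with
  | zero =>
    intro y p hy hp hadj h1
    have e := hX.connected.dist_eq_zero_iff.1 hy
    refine ⟨fun _ => T, geo_const T, e.symm, fun i => ?_⟩
    cases i with
    | zero => rw [SimpleGraph.dist_comm, h1]
    | succ i =>
      have n1 : p 0 ≠ T := by
        intro h
        rw [h, SimpleGraph.dist_self] at h1
        omega
      obtain ⟨-, a2⟩ := (hp 0).1 n1
      have h3 : p (0 + 1) = T := hX.connected.dist_eq_zero_iff.1 (by omega)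
      have h4 := (hp.tail).stay (by exact h3) i
      change p (i + 1) = T at h4
      rw [h4, SimpleGraph.dist_self]
      omega
  | succ n ih =>
    intro y p hy hp hadj h1
    have n1 : p 0 ≠ T := by
      intro h
      rw [h, SimpleGraph.dist_self] at h1
      omega
    obtain ⟨a1, a2⟩ := (hp 0).1 n1
    by_cases hpy : p (0 + 1) = y
    · refine ⟨fun i => p (i + 1), hp.tail, hpy, fun i => ?_⟩
      change X.dist (p (i + 1)) (p i) ≤ 1
      by_cases hi : p i = T
      · rw [(hp i).2 hi, hi, SimpleGraph.dist_self]
        omega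
      · rw [SimpleGraph.dist_comm]
        exact (SimpleGraph.dist_eq_one_iff_adj.2 ((hp i).1 hi).1).le
    · obtain ⟨w, hw1, hw2, hw3⟩ := hX.quadrangle T (p 0) y (p (0 + 1)) hadj a1
        (fun h => hpy h.symm) (by omega) (by omega)
      obtain ⟨c, hc, hc0, hcp⟩ := ih w (fun i => p (i + 1)) (by omega) hp.tail hw2
        (by change X.dist (p (0 + 1)) T = n + 1; omega)
      refine ⟨consG y c, hc.cons (by rw [hc0]; exact hw1) (by rw [hc0]; omega), rfl,
        fun i => ?_⟩
      cases i with
      | zero =>
        rw [consG_zero]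
        exact (SimpleGraph.dist_eq_one_iff_adj.2 hadj.symm).le
      | succ i => exact hcp i

/-- Adjacent targets, a vertex on a geodesic to one of them but not to the other. -/
lemma adj_geo {T T' : V} (hT : X.Adj T T') (z : V) :
    ∀ (k : ℕ) (p r : ℕ → V), p 0 = r 0 → X.dist (p 0) z = k → Geo X T p → Geo X T' r →
      k + X.dist z T = X.dist (p 0) T → k + X.dist z T' ≠ X.dist (p 0) T' →
      ∀ i, X.dist (p i) (r i) ≤ 2 * k := by
  intro k
  induction k with
  | zero =>
    intro p r _ h _ _ _ h2
    have e := hX.connected.dist_eq_zero_iff.1 h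
    exact absurd (by rw [e, Nat.zero_add]) h2
  | succ k ih =>
    intro p r hpr h hp hr h1 h2 i
    have hc := hX.connected
    have hne : p 0 ≠ z := by
      intro h'
      rw [h', SimpleGraph.dist_self] at h
      omega
    obtain ⟨y, hy1, hy2⟩ := closer hc hne
    have b1 := hc.dist_triangle (u := p 0) (v := y) (w := T)
    have b2 := hc.dist_triangle (u := y) (v := z) (w := T)
    have b3 := SimpleGraph.dist_eq_one_iff_adj.2 hy1
    have b4 := hc.dist_triangle (u := p 0) (v := z) (w := T')
    have b5 := hX.step' hT (p 0)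
    have b6 := hX.step' hT z
    have b7 := hX.step' hT y
    have b8 := hX.step hy1 T'
    obtain ⟨c, hcg, hc0, hcp⟩ := start_change hX _ y p rfl hp hy1 (by omega)
    rcases b7 with b7 | b7
    · obtain ⟨d, hdg, hd0, hdr⟩ := start_change hX _ y r rfl hr (by rw [← hpr]; exact hy1)
        (by rw [← hpr]; omega)
      have g1 := ih c d (hc0.trans hd0.symm) (by rw [hc0]; omega) hcg hdg
        (by rw [hc0]; omega) (by rw [hc0]; omega) i
      have g2 := hcp i
      have g3 := hdr i
      have g4 := hc.dist_triangle (u := p i) (v := c i) (w := r i)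
      have g5 := hc.dist_triangle (u := c i) (v := d i) (w := r i)
      rw [SimpleGraph.dist_comm (u := c i) (v := p i)] at g2
      omega
    · have g1 := ladder hX hT (X.dist y T) c r hcg hr (by rw [hc0, ← hpr]; exact hy1.symm)
        (by rw [hc0]) (by rw [← hpr]; omega) (by rw [hc0]; omega) (by rw [← hpr]; omega) i
      have g2 := hcp i
      have g3 := SimpleGraph.dist_eq_one_iff_adj.2 g1
      have g4 := hc.dist_triangle (u := p i) (v := c i) (w := r i)
      rw [SimpleGraph.dist_comm (u := c i) (v := p i)] at g2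
      omega

/-- **Main lemma**: if a vertex `z` at distance `k` from the start lies on a geodesic to `Q`, but
not on a geodesic to `Q'`, then all geodesics to `Q` and to `Q'` fellow travel. -/
theorem main_geo (z : V) (k : ℕ) :
    ∀ (l : ℕ) (Q Q' : V), X.dist Q Q' = l → ∀ p r : ℕ → V, p 0 = r 0 → X.dist (p 0) z = k →
      Geo X Q p → Geo X Q' r → k + X.dist z Q = X.dist (p 0) Q →
      k + X.dist z Q' ≠ X.dist (p 0) Q' → ∀ i, X.dist (p i) (r i) ≤ 2 * k + 2 * l := by
  intro l
  induction l with
  | zero =>
    intro Q Q' h p r _ _ _ _ h1 h2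
    have e := hX.connected.dist_eq_zero_iff.1 h
    rw [← e] at h2
    exact absurd h1 h2
  | succ l ih =>
    intro Q Q' h p r hpr hz hp hr h1 h2 i
    have hc := hX.connected
    have hne : Q ≠ Q' := by
      intro h'
      rw [h', SimpleGraph.dist_self] at h
      omega
    obtain ⟨y, hy1, hy2⟩ := closer hc hne
    by_cases hon : k + X.dist z y = X.dist (p 0) y
    · obtain ⟨d, hd, hd0, hdc⟩ := target_change hX hy1 hp
      have g1 := ih y Q' (by omega) d r (hd0.trans hpr) (by rw [hd0]; exact hz) hd hr
        (by rw [hd0]; exact hon) (by rw [hd0]; exact h2) i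
      have g2 := hdc i
      have g3 := hc.dist_triangle (u := p i) (v := d i) (w := r i)
      omega
    · obtain ⟨d, hd, hd0, hdc⟩ := target_change' hX l Q' y
        (by rw [SimpleGraph.dist_comm]; omega) r hr
      have g1 := adj_geo hX hy1 z k p d (hpr.trans hd0.symm) hz hp hd h1 hon i
      have g2 := hdc i
      have g3 := hc.dist_triangle (u := p i) (v := d i) (w := r i)
      rw [SimpleGraph.dist_comm (u := d i) (v := r i)] at g3
      omega

end her

end Pool.Agent.MP_b803e5_al
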