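import Mathlib
import Pool.Agent.Lib.MP_b803e5_al_Q.Geo

/-!
# MP_b803e5_al, hereditary modular graphs: shortlex least words

`G` acts by automorphisms on a hereditary modular graph. The orbit of `x0` is such that any two
distinct points of it are joined by a geodesic whose vertex number `ρ` is in the orbit, and the
alphabet enumerates the elements moving `x0` by at most `ρ`. Then shortlex least words of
neighbouring elements fellow travel, for every order of the alphabet.
-/

set_option autoImplicit false
set_option linter.unusedSectionVars false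

namespace Pool.Agent.MP_b803e5_al

namespace Quadric

variable {V : Type*} {X : SimpleGraph V} {G : Type*} [Group G] [MulAction G V]

/-- Two distinct orbit points are joined by a geodesic whose vertex number `ρ` is in the orbit. -/
def Orb (X : SimpleGraph V) (G : Type*) [Group G] [MulAction G V] (x0 : V) (ρ : ℕ) : Prop :=
  ∀ g : G, g • x0 ≠ x0 → ∃ h : G, X.dist x0 (h • x0) = ρ ∧
    X.dist (h • x0) (g • x0) + ρ = X.dist x0 (g • x0)

variable {A : Type*} [LinearOrder A] [Finite A] {f : A → G} {x0 : V} {ρ : ℕ}

section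

variable (hX : X.Connected) (hG : ∀ (g : G) (u v : V), X.Adj u v → X.Adj (g • u) (g • v))
  (hρ : 1 ≤ ρ) (horb : Orb X G x0 ρ)

include hX hG in
lemma dist_inv_mul (h g : G) : X.dist x0 ((h⁻¹ * g) • x0) = X.dist (h • x0) (g • x0) := by
  rw [← dist_smul hX hG h, mul_smul, smul_inv_smul]

include hX hG hρ horb in
lemma dvd_dist : ∀ (n : ℕ) (g : G), X.dist x0 (g • x0) = n → ρ ∣ n := by
  intro n
  induction n using Nat.strong_induction_on with
  | _ n ih =>
    intro g hg
    by_cases h0 : g • x0 = x0
    · rw [h0, SimpleGraph.dist_self] at hg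
      rw [← hg]
      exact dvd_zero ρ
    · obtain ⟨h, h1, h2⟩ := horb g h0
      have h3 := dist_inv_mul (x0 := x0) hX hG h g
      obtain ⟨c, hc⟩ := ih (X.dist (h • x0) (g • x0)) (by omega) (h⁻¹ * g) h3
      refine ⟨c + 1, ?_⟩
      rw [Nat.mul_add, Nat.mul_one, ← hc]
      omega

include hX hG in
lemma len_le (hf : ∀ a, X.dist x0 (f a • x0) ≤ ρ) (w : List A) :
    X.dist x0 (ev f w • x0) ≤ ρ * w.length := by
  induction w with
  | nil => simp
  | cons a w ih =>
    rw [ev_cons, mul_smul, List.length_cons, Nat.mul_add, Nat.mul_one]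
    have h1 := hX.dist_triangle (u := x0) (v := f a • x0) (w := f a • ev f w • x0)
    rw [dist_smul hX hG] at h1
    have := hf a
    omega

include hX hG horb in
lemma exists_word (hS : ∀ g : G, X.dist x0 (g • x0) ≤ ρ → ∃ a, f a = g) {m : ℕ} (hm : 1 ≤ m) :
    ∀ g : G, X.dist x0 (g • x0) ≤ ρ * m → ∃ w : List A, w.length = m ∧ ev f w = g := by
  induction m, hm using Nat.le_induction with
  | base =>
    intro g hg
    obtain ⟨a, ha⟩ := hS g (by omega)
    exact ⟨[a], rfl, by simp [ha]⟩
  | succ m hm ih =>
    intro g hg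
    rw [Nat.mul_add, Nat.mul_one] at hg
    by_cases h0 : g • x0 = x0
    · obtain ⟨a, ha⟩ := hS 1 (by simp)
      obtain ⟨w, hw, hwe⟩ := ih g (by rw [h0, SimpleGraph.dist_self]; omega)
      exact ⟨a :: w, by simp [hw], by rw [ev_cons, hwe, ha, one_mul]⟩
    · obtain ⟨h, h1, h2⟩ := horb g h0
      obtain ⟨a, ha⟩ := hS h h1.le
      obtain ⟨w, hw, hwe⟩ := ih (h⁻¹ * g) (by rw [dist_inv_mul hX hG]; omega)
      exact ⟨a :: w, by simp [hw], by rw [ev_cons, hwe, ha, mul_inv_cancel_left]⟩

include hX hG hρ horb in
lemma sl_dist (hf : ∀ a, X.dist x0 (f a • x0) ≤ ρ)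
    (hS : ∀ g : G, X.dist x0 (g • x0) ≤ ρ → ∃ a, f a = g) {w : List A}
    (hw : IsShortlexLeast f w) (h2 : 2 ≤ w.length) :
    X.dist x0 (ev f w • x0) = ρ * w.length := by
  refine le_antisymm (len_le hX hG hf w) ?_
  by_contra hlt
  rw [not_le] at hlt
  obtain ⟨c, hc⟩ := dvd_dist hX hG hρ horb _ (ev f w) rfl
  rw [hc] at hlt
  have h3 : c < w.length := Nat.lt_of_mul_lt_mul_left hlt
  obtain ⟨u, hu, hue⟩ := exists_word hX hG horb hS (m := w.length - 1) (by omega) (ev f w)
    (by rw [hc]; exact Nat.mul_le_mul_left ρ (by omega))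
  have h4 := hw.length_le f hue
  omega

include hX hG in
/-- Words without waste follow geodesics. -/
lemma geo_word (hf : ∀ a, X.dist x0 (f a • x0) ≤ ρ) (v : List A)
    (h : X.dist x0 (ev f v • x0) = ρ * v.length) :
    ∃ p, Geo X (ev f v • x0) p ∧ p 0 = x0 ∧ ∀ t, p (ρ * t) = ev f (v.take t) • x0 := by
  induction v with
  | nil =>
    refine ⟨fun _ => x0, ?_, rfl, fun t => by simp⟩
    rw [ev_nil, one_smul]
    exact geo_const x0
  | cons b v ih =>
    rw [List.length_cons, Nat.mul_add, Nat.mul_one] at h
    have h1 := hX.dist_triangle (u := x0) (v := f b • x0) (w := ev f (b :: v) • x0)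
    have h2 : X.dist (f b • x0) (ev f (b :: v) • x0) = X.dist x0 (ev f v • x0) := by
      rw [ev_cons, mul_smul, dist_smul hX hG]
    have h3 := len_le hX hG hf v
    have h4 := hf b
    obtain ⟨q, hq, hq0, hqt⟩ := ih (by omega)
    have hq' : Geo X (ev f (b :: v) • x0) (fun i => f b • q i) := by
      intro i
      rw [ev_cons, mul_smul]
      refine ⟨fun hne => ?_, fun he => ?_⟩
      · have hne' : q i ≠ ev f v • x0 := fun he => hne (congrArg (fun x => f b • x) he)
        obtain ⟨a1, a2⟩ := (hq i).1 hne'
        refine ⟨hG _ _ _ a1, ?_⟩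
        rw [dist_smul hX hG, dist_smul hX hG]
        exact a2
      · have he' : q i = ev f v • x0 := smul_left_cancel (f b) he
        change f b • q (i + 1) = _
        rw [(hq i).2 he']
    obtain ⟨p, hp, hp0, hpi⟩ := geo_prepend hX hq' (z := f b • x0) (by rw [hq0]) ρ x0
      (by omega) (by omega)
    refine ⟨p, hp, hp0, fun t => ?_⟩
    cases t with
    | zero => simp [hp0]
    | succ t =>
      rw [Nat.mul_add, Nat.mul_one, Nat.add_comm, hpi, hqt, List.take_succ_cons, ev_cons,
        mul_smul]

end

section

variable (hX : IsHerModular X) (hG : ∀ (g : G) (u v : V), X.Adj u v → X.Adj (g • u) (g • v))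
  (hρ : 1 ≤ ρ) (horb : Orb X G x0 ρ) (hf : ∀ a, X.dist x0 (f a • x0) ≤ ρ)
  (hS : ∀ g : G, X.dist x0 (g • x0) ≤ ρ → ∃ a, f a = g)

include hX hG horb hS in
/-- If the first vertex of `v` also lies on a geodesic to the end of `b' :: w`, then `b' ≤ b`. -/
lemma le_of_on {b b' : A} {w : List A} (hw : IsShortlexLeast f (b' :: w)) (h1 : 1 ≤ w.length)
    (hd : X.dist (f b • x0) (ev f (b' :: w) • x0) ≤ ρ * w.length) : b' ≤ b := by
  by_contra hlt
  rw [not_le] at hlt
  obtain ⟨u, hu, hue⟩ := exists_word hX.connected hG horb hS h1 ((f b)⁻¹ * ev f (b' :: w))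
    (by rw [dist_inv_mul hX.connected hG]; exact hd)
  refine hw (b :: u) (by rw [ev_cons, hue, mul_inv_cancel_left])
    (List.Shortlex.of_lex (by simp [hu]) (List.Lex.rel hlt))

include hX hG hρ horb hf hS in
/-- Shortlex least words with near endpoints fellow travel. -/
theorem ftl (v : List A) : ∀ w : List A, IsShortlexLeast f v → IsShortlexLeast f w →
    X.dist (ev f v • x0) (ev f w • x0) ≤ ρ → ∀ t : ℕ,
      X.dist (ev f (v.take t) • x0) (ev f (w.take t) • x0) ≤ 4 * ρ := by
  have hc := hX.connected
  -- short words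
  have short : ∀ v w : List A, IsShortlexLeast f v → IsShortlexLeast f w →
      X.dist (ev f v • x0) (ev f w • x0) ≤ ρ → v.length ≤ 1 → ∀ t : ℕ,
      X.dist (ev f (v.take t) • x0) (ev f (w.take t) • x0) ≤ 4 * ρ := by
    intro v w hv hw hd hl t
    have a1 := len_le (x0 := x0) hc hG hf v
    have a2 : ρ * v.length ≤ ρ * 1 := Nat.mul_le_mul_left ρ hl
    have a3 := hc.dist_triangle (u := x0) (v := ev f v • x0) (w := ev f w • x0)
    have hw3 : w.length ≤ 2 := by
      by_contra hlt
      rw [not_le] at hlt
      have a4 := sl_dist hc hG hρ horb hf hS hw (by omega)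
      have a5 : ρ * 3 ≤ ρ * w.length := Nat.mul_le_mul_left ρ hlt
      omega
    have b1 := len_le (x0 := x0) hc hG hf (v.take t)
    have b2 := len_le (x0 := x0) hc hG hf (w.take t)
    have b3 : ρ * (v.take t).length ≤ ρ * 1 :=
      Nat.mul_le_mul_left ρ (by rw [List.length_take]; omega)
    have b4 : ρ * (w.take t).length ≤ ρ * 2 :=
      Nat.mul_le_mul_left ρ (by rw [List.length_take]; omega)
    have b5 := hc.dist_triangle (u := ev f (v.take t) • x0) (v := x0)
      (w := ev f (w.take t) • x0)
    rw [SimpleGraph.dist_comm (u := ev f (v.take t) • x0) (v := x0)] at b5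
    omega
  induction v with
  | nil =>
    intro w hv hw hd t
    exact short [] w hv hw hd (by simp) t
  | cons b v ih =>
    intro w hv hw hd t
    cases w with
    | nil =>
      rw [SimpleGraph.dist_comm]
      exact short [] (b :: v) hw hv (by rw [SimpleGraph.dist_comm]; exact hd) (by simp) t
    | cons b' w =>
      by_cases hbb : b = b'
      · subst hbb
        cases t with
        | zero => simp
        | succ t =>
          have h1 := ih w (IsShortlexLeast.right f (u := [b]) hv)
            (IsShortlexLeast.right f (u := [b]) hw)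
            (by
              rw [ev_cons, ev_cons, mul_smul, mul_smul, dist_smul hc hG] at hd
              exact hd) t
          rw [List.take_succ_cons, List.take_succ_cons, ev_cons, ev_cons, mul_smul, mul_smul,
            dist_smul hc hG]
          exact h1
      · rcases Nat.lt_or_ge (b :: v).length 2 with hl1 | hl1
        · exact short (b :: v) (b' :: w) hv hw hd (by omega) t
        rcases Nat.lt_or_ge (b' :: w).length 2 with hl2 | hl2
        · rw [SimpleGraph.dist_comm]
          exact short (b' :: w) (b :: v) hw hv (by rw [SimpleGraph.dist_comm]; exact hd)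
            (by omega) t
        have e1 := sl_dist hc hG hρ horb hf hS hv hl1
        have e2 := sl_dist hc hG hρ horb hf hS hw hl2
        obtain ⟨p, hp, hp0, hpt⟩ := geo_word hc hG hf (b :: v) e1
        obtain ⟨r, hr, hr0, hrt⟩ := geo_word hc hG hf (b' :: w) e2
        -- distances from the first vertices
        have dz : ∀ (c : A) (u : List A), X.dist x0 (ev f (c :: u) • x0) = ρ * (c :: u).length →
            X.dist x0 (f c • x0) = ρ ∧
            ρ + X.dist (f c • x0) (ev f (c :: u) • x0) = X.dist x0 (ev f (c :: u) • x0) := by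
          intro c u h
          rw [List.length_cons, Nat.mul_add, Nat.mul_one] at h
          have h1 := hc.dist_triangle (u := x0) (v := f c • x0) (w := ev f (c :: u) • x0)
          have h2 : X.dist (f c • x0) (ev f (c :: u) • x0) = X.dist x0 (ev f u • x0) := by
            rw [ev_cons, mul_smul, dist_smul hc hG]
          have h3 := len_le (x0 := x0) hc hG hf u
          have h4 := hf c
          omega
        obtain ⟨z1, z2⟩ := dz b v e1
        obtain ⟨z1', z2'⟩ := dz b' w e2
        rw [← hpt t, ← hrt t]
        by_cases hA : ρ + X.dist (f b • x0) (ev f (b' :: w) • x0) = X.dist x0 (ev f (b' :: w) • x0)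
        · by_cases hB : ρ + X.dist (f b' • x0) (ev f (b :: v) • x0) =
              X.dist x0 (ev f (b :: v) • x0)
          · exfalso
            rw [List.length_cons] at hl1 hl2
            rw [List.length_cons, Nat.mul_add, Nat.mul_one] at e1 e2
            have g1 : b' ≤ b := le_of_on hX hG horb hS hw (by omega) (by omega)
            have g2 : b ≤ b' := le_of_on hX hG horb hS hv (by omega) (by omega)
            exact hbb (le_antisymm g2 g1)
          · have g1 := main_geo hX (f b' • x0) ρ _ _ _ rfl r p (by rw [hp0, hr0])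
              (by rw [hr0]; exact z1') hr hp (by rw [hr0]; exact z2') (by rw [hr0]; exact hB)
              (ρ * t)
            rw [SimpleGraph.dist_comm (u := ev f (b' :: w) • x0)] at g1
            rw [SimpleGraph.dist_comm]
            omega
        · have g1 := main_geo hX (f b • x0) ρ _ _ _ rfl p r (by rw [hp0, hr0])
            (by rw [hp0]; exact z1) hp hr (by rw [hp0]; exact z2) (by rw [hp0]; exact hA)
            (ρ * t)
          omega

include hX hG hρ horb hf hS in
/-- The shortlex least words are an automatic structure, and the alphabet generates. -/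
theorem automatic : (∀ g : G, ∃ w : List A, ev f w = g) ∧
    IsAutomaticStructure f ({w | IsShortlexLeast f w} : Set (List A)) := by
  have hc := hX.connected
  have hgen : ∀ g : G, ∃ w : List A, ev f w = g := by
    intro g
    obtain ⟨w, -, hw⟩ := exists_word (f := f) (x0 := x0) hc hG horb hS
      (m := X.dist x0 (g • x0) + 1) (by omega) g
      (by
        have : 1 * (X.dist x0 (g • x0) + 1) ≤ ρ * (X.dist x0 (g • x0) + 1) :=
          Nat.mul_le_mul_right _ hρ
        omega)
    exact ⟨w, hw⟩
  refine ⟨hgen, automatic_of_FT (F := {g : G | X.dist x0 (g • x0) ≤ 4 * ρ}) hgen ?_ (by simp) ?_⟩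
  · refine ((List.finite_length_eq A 4).image (ev f)).subset fun g hg => ?_
    obtain ⟨w, hw, hwe⟩ := exists_word hc hG horb hS (m := 4) (by omega) g
      (by
        change X.dist x0 (g • x0) ≤ 4 * ρ at hg
        omega)
    exact ⟨w, hw, hwe⟩
  · intro v w hv hw a h t
    change X.dist x0 (((ev f (v.take t))⁻¹ * ev f (w.take t)) • x0) ≤ 4 * ρ
    rw [dist_inv_mul hc hG]
    refine ftl hX hG hρ horb hf hS v w hv hw ?_ t
    rw [← h, mul_smul, dist_smul hc hG]
    exact hf a

end

end Quadric

end Pool.Agent.MP_b803e5_al
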