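import Mathlib
import Pool.Agent.Lib.MP_b803e5_al_Q.Wrd

/-!
# MP_b803e5_al, hereditary modular graphs: groups transitive on a colour class
-/

set_option autoImplicit false
set_option linter.unusedSectionVars false

namespace Pool.Agent.MP_b803e5_al

namespace Quadric

variable {V : Type*} {X : SimpleGraph V} {G : Type*} [Group G] [MulAction G V]

/-- The orbit condition gives shortlex automatic groups. -/
theorem shortlexAutomatic (hX : IsHerModular X)
    (hG : ∀ (g : G) (u v : V), X.Adj u v → X.Adj (g • u) (g • v)) {x0 : V} {ρ : ℕ}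
    (hρ : 1 ≤ ρ) (horb : Orb X G x0 ρ) (hfin : {g : G | X.dist x0 (g • x0) ≤ ρ}.Finite) :
    ShortlexAutomatic G := by
  obtain ⟨n, f, hf, hS, -⟩ := exists_enum hfin fun _ => 0
  exact ⟨n, f, automatic hX hG hρ horb hf hS⟩

/-- Parity of distances. -/
lemma parity (hX : IsHerModular X) (y z : V) :
    ∀ (n : ℕ) (x : V), X.dist x y = n → (X.dist x z + X.dist y z + n) % 2 = 0 := by
  intro n
  induction n with
  | zero =>
    intro x hx
    rw [hX.connected.dist_eq_zero_iff.1 hx]
    omega
  | succ n ih =>
    intro x hx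
    have hne : x ≠ y := by
      intro h'
      rw [h', SimpleGraph.dist_self] at hx
      omega
    obtain ⟨x', h1, h2⟩ := closer hX.connected hne
    have h3 := ih x' (by omega)
    have h4 := hX.step h1 z
    omega

/-- **Corollary**: transitivity on one colour class. -/
theorem shortlexAutomatic_of_class (hX : IsHerModular X)
    (hG : ∀ (g : G) (u v : V), X.Adj u v → X.Adj (g • u) (g • v)) (x0 : V)
    (hloc : ∀ v : V, (X.neighborSet v).Finite) (hst : {g : G | g • x0 = x0}.Finite)
    (htr : ∀ v : V, Even (X.dist x0 v) → ∃ g : G, g • x0 = v) : ShortlexAutomatic G := by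
  have hc := hX.connected
  -- finiteness
  have hB : ∀ v, {z | X.dist v z ≤ 1}.Finite := by
    intro v
    refine ((hloc v).union (Set.finite_singleton v)).subset ?_
    intro z hz
    change X.dist v z ≤ 1 at hz
    rcases Nat.le_one_iff_eq_zero_or_eq_one.1 hz with h | h
    · right
      exact ((hc.dist_eq_zero_iff).1 h).symm
    · left
      exact SimpleGraph.dist_eq_one_iff_adj.1 h
  have hBn : ∀ m : ℕ, {z | X.dist x0 z ≤ m}.Finite := by
    intro m
    induction m with
    | zero =>
      refine (Set.finite_singleton x0).subset fun z hz => ?_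
      change X.dist x0 z ≤ 0 at hz
      exact ((hc.dist_eq_zero_iff).1 (Nat.le_zero.1 hz)).symm
    | succ m ih =>
      refine (ih.biUnion fun v _ => hB v).subset fun z hz => ?_
      obtain ⟨y, hy1, hy2⟩ := exists_between hc (m := m) (n := 1) hz
      exact Set.mem_biUnion hy1 hy2
  have hto : ∀ v : V, {g : G | g • x0 = v}.Finite := by
    intro v
    by_cases hv : ∃ h : G, h • x0 = v
    · obtain ⟨h, hh⟩ := hv
      refine (hst.image fun g => h * g).subset fun g hg => ?_
      change g • x0 = v at hg
      exact ⟨h⁻¹ * g, by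
        change (h⁻¹ * g) • x0 = x0
        rw [mul_smul, hg, ← hh, inv_smul_smul], mul_inv_cancel_left h g⟩
    · refine Set.finite_empty.subset fun g hg => hv ⟨g, hg⟩
  have hFn : ∀ m : ℕ, {g : G | X.dist x0 (g • x0) ≤ m}.Finite := by
    intro m
    refine ((hBn m).biUnion fun v _ => hto v).subset fun g hg => ?_
    exact Set.mem_biUnion (show g • x0 ∈ {z | X.dist x0 z ≤ m} from hg) rfl
  by_cases hev : ∀ g : G, Even (X.dist x0 (g • x0))
  · -- the orbit is one colour class
    refine shortlexAutomatic hX hG (ρ := 2) (by norm_num) ?_ (hFn 2)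
    intro g hg
    have h0 : X.dist x0 (g • x0) ≠ 0 := fun h => hg (hc.dist_eq_zero_iff.1 h).symm
    obtain ⟨k, hk⟩ := hev g
    obtain ⟨z, hz1, hz2⟩ := exists_between hc (m := 2) (n := X.dist x0 (g • x0) - 2)
      (u := x0) (v := g • x0) (by omega)
    have h1 := hc.dist_triangle (u := x0) (v := z) (w := g • x0)
    obtain ⟨h, hh⟩ := htr z ⟨1, by omega⟩
    exact ⟨h, by rw [hh]; omega, by rw [hh]; omega⟩
  · -- the orbit is everything
    push Not at hev
    obtain ⟨g1, hg1⟩ := hev
    rw [Nat.not_even_iff_odd] at hg1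
    have htr' : ∀ v : V, ∃ g : G, g • x0 = v := by
      intro v
      by_cases hv : Even (X.dist x0 v)
      · exact htr v hv
      · rw [Nat.not_even_iff_odd] at hv
        have h1 := parity hX (g1 • x0) v _ x0 rfl
        obtain ⟨a, ha⟩ := hg1
        obtain ⟨b, hb⟩ := hv
        have h2 : X.dist x0 (g1⁻¹ • v) = X.dist (g1 • x0) v := by
          rw [← dist_smul hc hG g1, smul_inv_smul]
        obtain ⟨g, hg⟩ := htr (g1⁻¹ • v) (by
          rw [Nat.even_iff, h2]
          omega)
        exact ⟨g1 * g, by rw [mul_smul, hg, smul_inv_smul]⟩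
    refine shortlexAutomatic hX hG (ρ := 1) le_rfl ?_ (hFn 1)
    intro g hg
    have h0 : X.dist x0 (g • x0) ≠ 0 := fun h => hg (hc.dist_eq_zero_iff.1 h).symm
    obtain ⟨z, hz1, hz2⟩ := exists_between hc (m := 1) (n := X.dist x0 (g • x0) - 1)
      (u := x0) (v := g • x0) (by omega)
    have h1 := hc.dist_triangle (u := x0) (v := z) (w := g • x0)
    obtain ⟨h, hh⟩ := htr' z
    exact ⟨h, by rw [hh]; omega, by rw [hh]; omega⟩

end Quadric

end Pool.Agent.MP_b803e5_al
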